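import Mathlib
import Pool.Agent.H85.RegDefs
import Pool.Agent.H85.BrownianExists
import Pool.Agent.H85.RegQV
import Pool.Agent.H85.DecompUniq
import Pool.Agent.H85.RightCont

/-!
# A Brownian motion that is a non-regular semimartingale of a larger filtration

`B` Brownian motion, `X t = B t - t / 2`, `K t = sup_{v ≥ t} X v`.  In the filtration `𝓖`
generated by `B` and `K` (augmented, right-continuous), `N t = B t - t - 2 (K t - K 0)` is a
martingale, and `A t = t + 2 (K t - K 0)` has a singular part: `K` is continuous, nonincreasing,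
tends to `-∞` and is locally constant off the Lebesgue-null set `{X = K}`.
-/

open MeasureTheory ProbabilityTheory Filter Topology Set
open scoped NNReal ENNReal
open Pool.Agent.H85.BM Pool.Agent.H85.Regular

namespace Pool.Agent.Results.MP_e3daee_pr.NotRegular

/-- a good Brownian motion stays good on the completed space -/
lemma GoodBM_completion {Ω : Type} {mΩ : MeasurableSpace Ω} {P : Measure Ω} {B : ℝ≥0 → Ω → ℝ}
    (hB : GoodBM P B) :
    GoodBM (mΩ := (inferInstance : MeasurableSpace (NullMeasurableSpace Ω P)))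
      P.completion (fun t (ω : NullMeasurableSpace Ω P) => B t ω) := by
  have hle : mΩ ≤ (inferInstance : MeasurableSpace (NullMeasurableSpace Ω P)) :=
    fun s hs => MeasurableSet.nullMeasurableSet hs
  have hm : ∀ t, Measurable[(inferInstance : MeasurableSpace (NullMeasurableSpace Ω P))]
    (B t) := fun t => (hB.meas t).mono hle le_rfl
  refine
    { prob := ⟨(Measure.completion_apply P univ).trans hB.prob.measure_univ⟩
      pre := ⟨fun I => ?_⟩
      meas := hm
      cont := hB.cont
      zero := hB.zero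
      slln := hB.slln }
  have h1 := hB.pre.hasLaw I
  have hmI : Measurable fun ω => I.restrict (B · ω) :=
    measurable_pi_lambda _ fun i => hB.meas _
  have hmI' : Measurable[(inferInstance : MeasurableSpace (NullMeasurableSpace Ω P))]
      fun ω => I.restrict (B · ω) :=
    measurable_pi_lambda _ fun i => hm _
  refine ⟨hmI'.aemeasurable, ?_⟩
  rw [← h1.map_eq]
  ext s hs
  rw [Measure.map_apply hmI' hs, Measure.map_apply hmI hs]
  exact Measure.completion_apply P _

theorem main {Ω : Type} {mΩ : MeasurableSpace Ω} {P : Measure Ω} [P.IsComplete]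
    {B : ℝ≥0 → Ω → ℝ} (hB : GoodBM P B) :
    ∃ 𝓕 𝓖 : Filtration ℝ≥0 mΩ,
      ContainsNullSets 𝓕 P ∧ ContainsNullSets 𝓖 P ∧
      𝓕.IsRightContinuous ∧ 𝓖.IsRightContinuous ∧ 𝓕 ≤ 𝓖 ∧
      IsContLocalMartingale 𝓕 P B ∧
      IsContSemimartingale 𝓖 P B ∧
      ¬ IsRegular 𝓖 P B ∧
      (∃ Q, IsQuadVar P B Q) ∧
      ∀ N A Q, IsDecomposition 𝓖 P B N A → IsQuadVar P B Q →
        ∀ᵐ ω ∂P, ¬ AbsContWrt (fun t => A t ω) (fun t => Q t ω) := by
  have hprob := hB.prob
  have hdec : IsDecomposition (GG hB).rightCont P B (Nproc B) (Aproc B) := by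
    have h := isDecomposition_B hB
    refine ⟨?_, ?_, h.eq⟩
    · exact IsContLocalMartingale.of_martingale
        (martingale_rightCont (martingale_Nproc hB) h.locMart.continuous) h.locMart.continuous
    · exact ⟨fun t => (h.fv.adapted t).mono ((GG hB).le_rightCont t) le_rfl, h.fv.continuous,
        h.fv.zero, h.fv.fv⟩
  have hnot : ∀ N A Q, IsDecomposition (GG hB).rightCont P B N A → IsQuadVar P B Q →
        ∀ᵐ ω ∂P, ¬ AbsContWrt (fun t => A t ω) (fun t => Q t ω) := by
    intro N A Q hNA hQ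
    filter_upwards [IsDecomposition.unique hNA hdec, IsQuadVar.unique hQ (isQuadVar_B hB),
      ae_ae_X_lt_K hB] with ω h1 h2 h3
    have e1 : (fun t => A t ω) = fun t => Aproc B t ω := funext h1
    have e2 : (fun t => Q t ω) = fun t : ℝ≥0 => (t : ℝ) := funext h2
    rw [e1, e2]
    exact not_absContWrt hB h3
  refine ⟨(FF hB).rightCont, (GG hB).rightCont, ?_, ?_, inferInstance, inferInstance, ?_, ?_, ?_,
    ?_, ?_, hnot⟩
  · intro s hs
    exact (FF hB).le_rightCont 0 _ (containsNullSets_Fcomp _ _ _ s hs)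
  · intro s hs
    exact (GG hB).le_rightCont 0 _ (containsNullSets_Fcomp _ _ _ s hs)
  · intro t
    rw [Filtration.rightCont_eq, Filtration.rightCont_eq]
    refine iInf₂_mono fun j _ => ?_
    intro E hE
    obtain ⟨E', hE', h⟩ := hE
    exact ⟨E', F0_le_G0 B j _ hE', h⟩
  · exact IsContLocalMartingale.of_martingale (martingale_rightCont (martingale_B hB) hB.cont)
      hB.cont
  · exact ⟨_, _, hdec⟩
  · rintro ⟨N, A, Q, hNA, hQ, hAC⟩
    have h1 := hnot N A Q hNA hQ
    have h2 : ∀ᵐ ω ∂P, False := by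
      filter_upwards [hAC, h1] with ω a b using b a
    rw [Filter.eventually_false_iff_eq_bot, ae_eq_bot] at h2
    exact (IsProbabilityMeasure.ne_zero P) h2
  · exact ⟨_, isQuadVar_B hB⟩

/-- **Disproof.** There are a complete probability space, filtrations `𝓕 ≤ 𝓖` satisfying the usual
conditions and a Brownian motion `M`, which is a continuous `𝓕`-local martingale and a
continuous `𝓖`-semimartingale, such that `M` is not a regular `𝓖`-semimartingale; moreover for
every decomposition `M = N + A` in `𝓖` the finite variation part `A` is almost surely not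
absolutely continuous with respect to `[M, M]`. -/
theorem result :
    ∃ (Ω : Type) (mΩ : MeasurableSpace Ω) (P : Measure Ω) (𝓕 𝓖 : Filtration ℝ≥0 mΩ)
      (M : ℝ≥0 → Ω → ℝ),
      IsProbabilityMeasure P ∧ P.IsComplete ∧
      ContainsNullSets 𝓕 P ∧ ContainsNullSets 𝓖 P ∧
      𝓕.IsRightContinuous ∧ 𝓖.IsRightContinuous ∧ 𝓕 ≤ 𝓖 ∧
      IsBrownianReal M P ∧
      IsContLocalMartingale 𝓕 P M ∧
      IsContSemimartingale 𝓖 P M ∧
      ¬ IsRegular 𝓖 P M ∧
      (∃ Q, IsQuadVar P M Q) ∧
      ∀ N A Q, IsDecomposition 𝓖 P M N A → IsQuadVar P M Q →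
        ∀ᵐ ω ∂P, ¬ AbsContWrt (fun t => A t ω) (fun t => Q t ω) := by
  obtain ⟨Ω, mΩ, P, B, hP, hpre, hmeas, hcont, hzero, hlim⟩ := exists_brownianMotion
  have hB : GoodBM P B := ⟨hP, hpre, hmeas, hcont, hzero, hlim⟩
  have hB' := GoodBM_completion hB
  obtain ⟨𝓕, 𝓖, h⟩ := main hB'
  exact ⟨NullMeasurableSpace Ω P, inferInstance, P.completion, 𝓕, 𝓖, _, hB'.prob, inferInstance,
    h.1, h.2.1, h.2.2.1, h.2.2.2.1, h.2.2.2.2.1, ⟨hB'.pre, ae_of_all _ hB'.cont⟩,
    h.2.2.2.2.2⟩

end Pool.Agent.Results.MP_e3daee_pr.NotRegular
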